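import Mathlib

set_option autoImplicit false

namespace Pool.Agent.Work.MP_b103ef_al_h94

variable {k W : Type} [Field k] [AddCommGroup W] [Module k W]

/-- `G` is the graph of a map `t / t' → al / b'`. -/
def MAP (t' t b' al G : Submodule k W) : Prop :=
  G ⊓ (al ⊔ t') = b' ⊔ t' ∧ G ⊔ al = al ⊔ t

/-- `G` is the graph of an isomorphism `t / t' → al / b'`. -/
def ISO (t' t b' al G : Submodule k W) : Prop :=
  MAP t' t b' al G ∧ MAP b' al t' t G

theorem MAP_zero {t' t b' al : Submodule k W}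
    (hind : (t ⊔ b') ⊓ (al ⊔ t') = b' ⊔ t') (hb : b' ≤ al) : MAP t' t b' al (b' ⊔ t) := by
  constructor
  · rw [sup_comm b' t]; exact hind
  · rw [sup_comm al t, sup_assoc, sup_comm t al, ← sup_assoc, sup_eq_right.2 hb, sup_comm]

/-- (6.1): an isomorphism of the quotients has a graph. -/
theorem exists_ISO {t' t b' al : Submodule k W} (ht : t' ≤ t) (hb : b' ≤ al)
    (hind : (t ⊔ b') ⊓ (al ⊔ t') = b' ⊔ t') (h1 : t ⊓ b' ≤ t') (h2 : al ⊓ t' ≤ b')
    (e : (↥t ⧸ t'.submoduleOf t) ≃ₗ[k] (↥al ⧸ b'.submoduleOf al)) :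
    ∃ G : Submodule k W, ISO t' t b' al G := by
  have key1 : ∀ x ∈ t, x ∈ al ⊔ t' → x ∈ t' := by
    intro x hx hx2
    have h3 : x ∈ b' ⊔ t' := by
      rw [← hind]
      exact ⟨Submodule.mem_sup_left hx, hx2⟩
    obtain ⟨b, hbb, s, hs, rfl⟩ := Submodule.mem_sup.1 h3
    have h4 : b ∈ t := by
      have := t.sub_mem hx (ht hs)
      rwa [add_sub_cancel_right] at this
    exact t'.add_mem (h1 ⟨h4, hbb⟩) hs
  have key2 : ∀ y ∈ al, y ∈ t ⊔ b' → y ∈ b' := by
    intro y hy hy2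
    have h3 : y ∈ b' ⊔ t' := by
      rw [← hind]
      exact ⟨hy2, Submodule.mem_sup_left hy⟩
    obtain ⟨b, hbb, s, hs, rfl⟩ := Submodule.mem_sup.1 h3
    have h4 : s ∈ al := by
      have := al.sub_mem hy (hb hbb)
      rwa [add_sub_cancel_left] at this
    exact b'.add_mem hbb (h2 ⟨h4, hs⟩)
  let G : Submodule k W :=
    { carrier := {v | ∃ (x : t) (y : al), e (Submodule.Quotient.mk x) = Submodule.Quotient.mk y ∧
        v = (x : W) + y}
      add_mem' := by
        rintro v w ⟨x, y, h, rfl⟩ ⟨x', y', h', rfl⟩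
        refine ⟨x + x', y + y', ?_, ?_⟩
        · rw [Submodule.Quotient.mk_add, map_add, h, h', ← Submodule.Quotient.mk_add]
        · push_cast; abel
      zero_mem' := ⟨0, 0, by simp, by simp⟩
      smul_mem' := by
        rintro c v ⟨x, y, h, rfl⟩
        refine ⟨c • x, c • y, ?_, ?_⟩
        · rw [Submodule.Quotient.mk_smul, map_smul, h, ← Submodule.Quotient.mk_smul]
        · push_cast; rw [smul_add] }
  have memG : ∀ v, v ∈ G ↔ ∃ (x : t) (y : al),
      e (Submodule.Quotient.mk x) = Submodule.Quotient.mk y ∧ v = (x : W) + y := fun v => Iff.rfl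
  have mk0t : ∀ x : t, (Submodule.Quotient.mk x : ↥t ⧸ t'.submoduleOf t) = 0 ↔ (x : W) ∈ t' := by
    intro x
    rw [Submodule.Quotient.mk_eq_zero]
    rfl
  have mk0a : ∀ y : al, (Submodule.Quotient.mk y : ↥al ⧸ b'.submoduleOf al) = 0 ↔ (y : W) ∈ b' := by
    intro y
    rw [Submodule.Quotient.mk_eq_zero]
    rfl
  have hbt : b' ⊔ t' ≤ G := by
    intro v hv
    obtain ⟨b, hbb, s, hs, rfl⟩ := Submodule.mem_sup.1 hv
    refine ⟨⟨s, ht hs⟩, ⟨b, hb hbb⟩, ?_, by rw [add_comm]⟩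
    rw [(mk0t ⟨s, ht hs⟩).2 hs, (mk0a ⟨b, hb hbb⟩).2 hbb, map_zero]
  refine ⟨G, ⟨?_, ?_⟩, ⟨?_, ?_⟩⟩
  · apply le_antisymm
    · rintro v ⟨hv, hv2⟩
      obtain ⟨x, y, h, rfl⟩ := (memG v).1 hv
      have hx : (x : W) ∈ al ⊔ t' := by
        have := (al ⊔ t').sub_mem hv2 (Submodule.mem_sup_left y.2 : (y : W) ∈ al ⊔ t')
        rwa [add_sub_cancel_right] at this
      have hx' := key1 x x.2 hx
      have hy' : (y : W) ∈ b' := by
        rw [← mk0a, ← h, (mk0t x).2 hx', map_zero]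
      rw [add_comm]
      exact Submodule.add_mem_sup hy' hx'
    · refine le_inf hbt ?_
      exact sup_le_sup_right hb _
  · apply le_antisymm
    · refine sup_le ?_ le_sup_left
      intro v hv
      obtain ⟨x, y, h, rfl⟩ := (memG v).1 hv
      rw [add_comm]
      exact Submodule.add_mem_sup y.2 x.2
    · refine sup_le le_sup_right ?_
      intro x hx
      obtain ⟨y, hy⟩ := Submodule.Quotient.mk_surjective _ (e (Submodule.Quotient.mk ⟨x, hx⟩))
      have h3 : x + (y : W) ∈ G := ⟨⟨x, hx⟩, y, hy.symm, rfl⟩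
      have h4 : x = (x + (y : W)) + -(y : W) := by abel
      rw [h4]
      exact Submodule.add_mem_sup h3 (al.neg_mem y.2)
  · apply le_antisymm
    · rintro v ⟨hv, hv2⟩
      obtain ⟨x, y, h, rfl⟩ := (memG v).1 hv
      have hy : (y : W) ∈ t ⊔ b' := by
        have := (t ⊔ b').sub_mem hv2 (Submodule.mem_sup_left x.2 : (x : W) ∈ t ⊔ b')
        rwa [add_sub_cancel_left] at this
      have hy' := key2 y y.2 hy
      have hx' : (x : W) ∈ t' := by
        rw [← mk0t]
        apply e.injective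
        rw [h, (mk0a y).2 hy', map_zero]
      exact Submodule.add_mem_sup hx' hy'
    · refine le_inf (by rw [sup_comm]; exact hbt) ?_
      exact sup_le_sup_right ht _
  · apply le_antisymm
    · refine sup_le ?_ le_sup_left
      intro v hv
      obtain ⟨x, y, h, rfl⟩ := (memG v).1 hv
      exact Submodule.add_mem_sup x.2 y.2
    · refine sup_le le_sup_right ?_
      intro y hy
      obtain ⟨x, hx⟩ := Submodule.Quotient.mk_surjective _ (e.symm (Submodule.Quotient.mk ⟨y, hy⟩))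
      have h3 : (x : W) + y ∈ G := ⟨x, ⟨y, hy⟩, by rw [hx, LinearEquiv.apply_symm_apply], rfl⟩
      have h4 : y = ((x : W) + y) + -(x : W) := by abel
      rw [h4]
      exact Submodule.add_mem_sup h3 (t.neg_mem x.2)

/-- (6.2): invariance. -/
theorem MAP_inv {t' t b' al G : Submodule k W} (h : MAP t' t b' al G)
    (p : W →ₗ[k] W) (hp : (∀ v ∈ t, p v ∈ t') ∧ (∀ v ∈ al, p v ∈ b')) : ∀ v ∈ G, p v ∈ G := by
  intro v hv
  have h1 : v ∈ al ⊔ t := by
    rw [← h.2]
    exact Submodule.mem_sup_left hv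
  obtain ⟨y, hy, x, hx, rfl⟩ := Submodule.mem_sup.1 h1
  have h2 : b' ⊔ t' ≤ G := by
    rw [← h.1]
    exact inf_le_left
  apply h2
  rw [map_add]
  exact Submodule.add_mem_sup (hp.2 y hy) (hp.1 x hx)

theorem MAP_inv' {t' t b' al G : Submodule k W} (h : MAP t' t b' al G)
    (p : W →ₗ[k] W)
    (hp : (∀ v ∈ t, v - p v ∈ t') ∧ (∀ v ∈ al, v - p v ∈ b')) : ∀ v ∈ G, p v ∈ G := by
  intro v hv
  have h1 := MAP_inv h (LinearMap.id - p) ⟨fun w hw => by simpa using hp.1 w hw,
    fun w hw => by simpa using hp.2 w hw⟩ v hv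
  have h2 := G.sub_mem hv h1
  simpa using h2

/-- Rank criterion: two subquotients whose rank is at least the cardinality of the space. -/
theorem quot_equiv {ι : Type} [Infinite ι] (t' t b' al : Submodule k W)
    (hW : Cardinal.mk W ≤ Cardinal.mk ι)
    (h1 : Cardinal.mk ι ≤ Module.rank k (↥t ⧸ t'.submoduleOf t))
    (h2 : Cardinal.mk ι ≤ Module.rank k (↥al ⧸ b'.submoduleOf al)) :
    Nonempty ((↥t ⧸ t'.submoduleOf t) ≃ₗ[k] (↥al ⧸ b'.submoduleOf al)) := by
  have key : ∀ s' s : Submodule k W, Cardinal.mk ι ≤ Module.rank k (↥s ⧸ s'.submoduleOf s) →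
      Module.rank k (↥s ⧸ s'.submoduleOf s) = Cardinal.mk ι := by
    intro s' s h
    apply le_antisymm _ h
    have h3 : Module.rank k (↥s ⧸ s'.submoduleOf s) ≤ Cardinal.mk (↥s ⧸ s'.submoduleOf s) :=
      rank_le_card _ _
    refine h3.trans ?_
    have h4 : Cardinal.mk (↥s ⧸ s'.submoduleOf s) ≤ Cardinal.mk s :=
      Cardinal.mk_le_of_surjective (Submodule.Quotient.mk_surjective _)
    exact h4.trans ((Cardinal.mk_subtype_le _).trans hW)
  exact Module.nonempty_linearEquiv_iff_rank_eq.2 ((key _ _ h1).trans (key _ _ h2).symm)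

end Pool.Agent.Work.MP_b103ef_al_h94
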