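import Pool.Agent.Work.MP_b103ef_al_helper93.Base

set_option autoImplicit false

namespace Pool.Agent.Work.MP_b103ef_al_h94

open Pool.Agent.Work.MP_b103ef_al_h93 Pool.Agent.Work.MP_b103ef_al_h93.N5

theorem rtg_lift {α β : Type} {r : α → α → Prop} {p : β → β → Prop} (f : α → β)
    (h : ∀ u v, r u v → p (f u) (f v)) {u v : α} (huv : Relation.ReflTransGen r u v) :
    Relation.ReflTransGen p (f u) (f v) := by
  induction huv with
  | refl => exact Relation.ReflTransGen.refl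
  | tail _ h2 ih => exact ih.tail (h _ _ h2)

theorem rtg_symm {α : Type} {r : α → α → Prop} (hs : ∀ u v, r u v → r v u) {u v : α}
    (huv : Relation.ReflTransGen r u v) : Relation.ReflTransGen r v u := by
  induction huv with
  | refl => exact Relation.ReflTransGen.refl
  | tail _ h2 ih => exact Relation.ReflTransGen.head (hs _ _ h2) ih

/-- The polynomials that separate `a` and `b`. -/
theorem N5_sep : ∀ u v : N5, u ≠ v →
    (((u ⊓ b) ⊔ a = a ∧ (v ⊓ b) ⊔ a = b) ∨ ((u ⊓ b) ⊔ a = b ∧ (v ⊓ b) ⊔ a = a)) ∨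
    ((((u ⊔ c) ⊓ b) ⊔ a = a ∧ ((v ⊔ c) ⊓ b) ⊔ a = b) ∨
      (((u ⊔ c) ⊓ b) ⊔ a = b ∧ ((v ⊔ c) ⊓ b) ⊔ a = a)) ∨
    (((u ⊔ a) ⊓ b = a ∧ (v ⊔ a) ⊓ b = b) ∨ ((u ⊔ a) ⊓ b = b ∧ (v ⊔ a) ⊓ b = a)) ∨
    ((((u ⊓ c) ⊔ a) ⊓ b = a ∧ ((v ⊓ c) ⊔ a) ⊓ b = b) ∨
      (((u ⊓ c) ⊔ a) ⊓ b = b ∧ ((v ⊓ c) ⊔ a) ⊓ b = a)) := by
  decide

theorem N5_distrib : ∀ p q r : N5, p ⊓ (q ⊔ r) = (p ⊓ q) ⊔ (p ⊓ r) ∨
    (p = b ∧ ((q = a ∧ r = c) ∨ (q = c ∧ r = a)) ∧ p ⊓ (q ⊔ r) = b ∧ (p ⊓ q) ⊔ (p ⊓ r) = a) := by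
  decide

variable {L : Type} [Lattice L]

/-- If `g` hits `a, b, c` and `θ` does not collapse the fibres of `a` and `b`, then `θ ≤ ker g`. -/
theorem le_ker (g : LatticeHom L N5) (θ : LCon L) {ua ub uc : L} (ha : g ua = a) (hb : g ub = b)
    (hc : g uc = c) (hk : ∀ u v, g u = g v → θ.1 u v) (hab : ¬ θ.1 ua ub) {u v : L}
    (huv : θ.1 u v) : g u = g v := by
  by_contra hne
  apply hab
  have key : ∀ p q : L, θ.1 p q → ((g p = a ∧ g q = b) ∨ (g p = b ∧ g q = a)) → θ.1 ua ub := by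
    intro p q hpq h
    rcases h with ⟨h1, h2⟩ | ⟨h1, h2⟩
    · exact θ.trans (hk ua p (ha.trans h1.symm)) (θ.trans hpq (hk q ub (h2.trans hb.symm)))
    · exact θ.trans (hk ua q (ha.trans h2.symm)) (θ.trans (θ.symm hpq) (hk p ub (h1.trans hb.symm)))
  rcases N5_sep (g u) (g v) hne with h | h | h | h
  · refine key ((u ⊓ ub) ⊔ ua) ((v ⊓ ub) ⊔ ua) (θ.sup_right _ (θ.inf_right _ huv)) ?_
    rw [map_sup, map_inf, map_sup, map_inf, ha, hb]; exact h
  · refine key (((u ⊔ uc) ⊓ ub) ⊔ ua) (((v ⊔ uc) ⊓ ub) ⊔ ua)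
      (θ.sup_right _ (θ.inf_right _ (θ.sup_right _ huv))) ?_
    rw [map_sup, map_inf, map_sup, map_sup, map_inf, map_sup, ha, hb, hc]; exact h
  · refine key ((u ⊔ ua) ⊓ ub) ((v ⊔ ua) ⊓ ub) (θ.inf_right _ (θ.sup_right _ huv)) ?_
    rw [map_inf, map_sup, map_inf, map_sup, ha, hb]; exact h
  · refine key (((u ⊓ uc) ⊔ ua) ⊓ ub) (((v ⊓ uc) ⊔ ua) ⊓ ub)
      (θ.inf_right _ (θ.sup_right _ (θ.inf_right _ huv))) ?_
    rw [map_inf, map_sup, map_inf, map_inf, map_sup, map_inf, ha, hb, hc]; exact h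

/-- `L / θ` is distributive as soon as `ker g ≤ θ` and the pair `a, b` is collapsed or not hit. -/
theorem distrib_mod (g : LatticeHom L N5) (θ : LCon L)
    (hk : ∀ u v, g u = g v → θ.1 u v)
    (hab : ∀ ua ub uc : L, g ua = a → g ub = b → g uc = c → θ.1 ua ub) (u v w : L) :
    θ.1 (u ⊓ (v ⊔ w)) ((u ⊓ v) ⊔ (u ⊓ w)) := by
  rcases N5_distrib (g u) (g v) (g w) with h | ⟨h1, h2, h3, h4⟩
  · apply hk
    rw [map_inf, map_sup, map_sup, map_inf, map_inf]; exact h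
  · have e1 : g (u ⊓ (v ⊔ w)) = b := by rw [map_inf, map_sup]; exact h3
    have e2 : g ((u ⊓ v) ⊔ (u ⊓ w)) = a := by rw [map_sup, map_inf, map_inf]; exact h4
    apply θ.symm
    rcases h2 with ⟨_, h⟩ | ⟨h, _⟩
    · exact hab _ _ w e2 e1 h
    · exact hab _ _ v e2 e1 h

/-- The union of a nonempty chain of congruences. -/
theorem exists_max (θ : LCon L) {x y : L} (h : ¬ θ.1 x y) :
    ∃ η : LCon L, θ ≤ η ∧ ¬ η.1 x y ∧ ∀ ζ : LCon L, η ≤ ζ → ¬ ζ.1 x y → ζ ≤ η := by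
  have hz := zorn_le_nonempty₀ {η : LCon L | ¬ η.1 x y} ?_ θ h
  · obtain ⟨m, h1, h2⟩ := hz
    refine ⟨m, h1, h2.1, ?_⟩
    intro ζ hζ hxy
    exact h2.2 hxy hζ
  · intro C hC hch η0 hη0
    refine ⟨⟨fun u v => ∃ η ∈ C, η.1 u v, ?_, ?_⟩, ?_, ?_⟩
    · refine ⟨fun u => ⟨η0, hη0, η0.refl u⟩, ?_, ?_⟩
      · rintro u v ⟨η, hη, huv⟩
        exact ⟨η, hη, η.symm huv⟩
      · rintro u v w ⟨η, hη, huv⟩ ⟨η', hη', hvw⟩
        rcases hch.total hη hη' with hle | hle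
        · exact ⟨η', hη', η'.trans (hle _ _ huv) hvw⟩
        · exact ⟨η, hη, η.trans huv (hle _ _ hvw)⟩
    · rintro u v w z ⟨η, hη, huv⟩ ⟨η', hη', hwz⟩
      rcases hch.total hη hη' with hle | hle
      · exact ⟨⟨η', hη', η'.sup (hle _ _ huv) hwz⟩, ⟨η', hη', η'.inf (hle _ _ huv) hwz⟩⟩
      · exact ⟨⟨η, hη, η.sup huv (hle _ _ hwz)⟩, ⟨η, hη, η.inf huv (hle _ _ hwz)⟩⟩
    · rintro ⟨η, hη, hxy⟩
      exact hC hη hxy
    · intro η hη u v huv
      exact ⟨η, hη, huv⟩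

/-- The join of two congruences as a chain relation. -/
def cj (θ η : LCon L) : LCon L :=
  ⟨Relation.ReflTransGen (fun u v => θ.1 u v ∨ η.1 u v), by
    refine ⟨⟨fun _ => Relation.ReflTransGen.refl, ?_, fun h h' => h.trans h'⟩, ?_⟩
    · intro u v h
      refine rtg_symm ?_ h
      rintro p q (h | h)
      · exact Or.inl (θ.symm h)
      · exact Or.inr (η.symm h)
    · intro p q r s h h'
      constructor
      · have h1 : Relation.ReflTransGen (fun u v => θ.1 u v ∨ η.1 u v) (p ⊔ r) (q ⊔ r) :=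
          rtg_lift (fun z => z ⊔ r)
            (fun u v huv => huv.imp (fun k => θ.sup_right _ k) (fun k => η.sup_right _ k)) h
        have h2 : Relation.ReflTransGen (fun u v => θ.1 u v ∨ η.1 u v) (q ⊔ r) (q ⊔ s) :=
          rtg_lift (fun z => q ⊔ z)
            (fun u v huv => huv.imp (fun k => θ.sup_left _ k) (fun k => η.sup_left _ k)) h'
        exact h1.trans h2
      · have h1 : Relation.ReflTransGen (fun u v => θ.1 u v ∨ η.1 u v) (p ⊓ r) (q ⊓ r) :=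
          rtg_lift (fun z => z ⊓ r)
            (fun u v huv => huv.imp (fun k => θ.inf_right _ k) (fun k => η.inf_right _ k)) h
        have h2 : Relation.ReflTransGen (fun u v => θ.1 u v ∨ η.1 u v) (q ⊓ r) (q ⊓ s) :=
          rtg_lift (fun z => q ⊓ z)
            (fun u v huv => huv.imp (fun k => θ.inf_left _ k) (fun k => η.inf_left _ k)) h'
        exact h1.trans h2⟩

theorem le_cj_left (θ η : LCon L) : θ ≤ cj θ η :=
  fun _ _ h => Relation.ReflTransGen.single (Or.inl h)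

theorem le_cj_right (θ η : LCon L) : η ≤ cj θ η :=
  fun _ _ h => Relation.ReflTransGen.single (Or.inr h)

theorem rtg_con (θ : LCon L) {u v : L} (h : Relation.ReflTransGen (fun u v => θ.1 u v) u v) :
    θ.1 u v := by
  induction h with
  | refl => exact θ.refl _
  | tail _ h3 ih => exact θ.trans ih h3

/-- Distributivity, in the form needed. -/
theorem meet_irred (θ η ζ : LCon L) {x y : L} (hxy : x ≤ y) (h1 : (cj θ η).1 x y)
    (h2 : (cj θ ζ).1 x y) (h : ∀ u v, η.1 u v → ζ.1 u v → θ.1 u v) : θ.1 x y := by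
  -- steps inside `[p, q]`
  have step : ∀ p q : L, x ≤ p → p ≤ q → q ≤ y → η.1 p q → θ.1 p q := by
    intro p q hp hpq hq hη
    have hc : ∀ z, η.1 ((p ⊔ z) ⊓ q) q := by
      intro z
      have h3 := η.inf_right q (η.sup_right z hη)
      have h4 : (q ⊔ z) ⊓ q = q := inf_eq_right.2 le_sup_left
      rwa [h4] at h3
    have hlift : Relation.ReflTransGen (fun u v => θ.1 u v) ((p ⊔ x) ⊓ q) ((p ⊔ y) ⊓ q) := by
      refine rtg_lift (fun z => (p ⊔ z) ⊓ q) ?_ h2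
      rintro u v (k | k)
      · exact θ.inf_right _ (θ.sup_left _ k)
      · refine h _ _ ?_ (ζ.inf_right _ (ζ.sup_left _ k))
        exact η.trans (hc u) (η.symm (hc v))
    have e1 : (p ⊔ x) ⊓ q = p := by
      rw [sup_eq_left.2 hp, inf_eq_left.2 hpq]
    have e2 : (p ⊔ y) ⊓ q = q := by
      rw [inf_eq_right.2 (hq.trans le_sup_right)]
    rw [e1, e2] at hlift
    exact rtg_con θ hlift
  have hlift : Relation.ReflTransGen (fun u v => θ.1 u v) ((x ⊔ x) ⊓ y) ((x ⊔ y) ⊓ y) := by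
    refine rtg_lift (fun z => (x ⊔ z) ⊓ y) ?_ h1
    rintro u v (k | k)
    · exact θ.inf_right _ (θ.sup_left _ k)
    · have k' : η.1 ((x ⊔ u) ⊓ y) ((x ⊔ v) ⊓ y) := η.inf_right _ (η.sup_left _ k)
      set p := (x ⊔ u) ⊓ y with hp
      set q := (x ⊔ v) ⊓ y with hq
      have hxp : x ≤ p := le_inf le_sup_left hxy
      have hxq : x ≤ q := le_inf le_sup_left hxy
      have hpy : p ≤ y := inf_le_right
      have hqy : q ≤ y := inf_le_right
      have h5 : η.1 (p ⊓ q) (p ⊔ q) := by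
        have h6 : η.1 (p ⊓ q) q := by
          have := η.inf_right q k'
          rwa [inf_idem] at this
        have h7 : η.1 q (p ⊔ q) := by
          have := η.sup_right q k'
          rw [sup_idem] at this
          exact η.symm this
        exact η.trans h6 h7
      have h8 := step (p ⊓ q) (p ⊔ q) (le_inf hxp hxq) (inf_le_left.trans le_sup_left)
        (sup_le hpy hqy) h5
      exact θ.trans (θ.symm (θ.bot_mid h8 inf_le_left le_sup_left))
        (θ.bot_mid h8 inf_le_right le_sup_right)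
  have e1 : (x ⊔ x) ⊓ y = x := by rw [sup_idem, inf_eq_left.2 hxy]
  have e2 : (x ⊔ y) ⊓ y = y := inf_eq_right.2 le_sup_right
  rw [e1, e2] at hlift
  exact rtg_con θ hlift

/-- A maximal congruence without (x, y) whose quotient is distributive is the kernel of a
homomorphism onto the two element lattice. -/
theorem two_hom (θ : LCon L) {x y : L} (hxy : x ≤ y) (hn : ¬ θ.1 x y)
    (hmax : ∀ ζ : LCon L, θ ≤ ζ → ¬ ζ.1 x y → ζ ≤ θ)
    (hd : ∀ u v w : L, θ.1 (u ⊓ (v ⊔ w)) ((u ⊓ v) ⊔ (u ⊓ w))) :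
    ∃ φ : LatticeHom L N5, (∀ z, φ z = o ∨ φ z = i) ∧ (∀ u v, θ.1 u v → φ u = φ v) ∧
      φ x ≠ φ y := by
  classical
  -- dual distributivity
  have hd' : ∀ u v w : L, θ.1 ((u ⊓ v) ⊔ w) ((u ⊔ w) ⊓ (v ⊔ w)) := by
    intro u v w
    have h1 := hd (u ⊔ w) v w
    have h2 : (u ⊔ w) ⊓ w = w := inf_eq_right.2 le_sup_right
    rw [h2] at h1
    have h3 := hd v u w
    have h4 : θ.1 (((u ⊔ w) ⊓ v) ⊔ w) ((u ⊓ v) ⊔ w) := by
      have h5 : θ.1 ((u ⊔ w) ⊓ v) ((v ⊓ u) ⊔ (v ⊓ w)) := by rw [inf_comm]; exact h3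
      have h6 := θ.sup_right w h5
      have h7 : ((v ⊓ u) ⊔ (v ⊓ w)) ⊔ w = (u ⊓ v) ⊔ w := by
        rw [sup_assoc, sup_eq_right.2 (inf_le_right : v ⊓ w ≤ w), inf_comm]
      rwa [h7] at h6
    exact θ.symm (θ.trans h1 h4)
  -- the two congruences attached to `t`
  let ps : L → LCon L := fun t => ⟨fun u v => θ.1 (u ⊔ t) (v ⊔ t), by
    refine ⟨⟨fun u => θ.refl _, fun h => θ.symm h, fun h h' => θ.trans h h'⟩, ?_⟩
    intro p q r s h h'
    constructor
    · have e : ∀ m n : L, (m ⊔ n) ⊔ t = (m ⊔ t) ⊔ (n ⊔ t) := fun m n => sup_sup_distrib_right m n t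
      show θ.1 ((p ⊔ r) ⊔ t) ((q ⊔ s) ⊔ t)
      rw [e, e]
      exact θ.sup h h'
    · exact θ.trans (hd' p r t) (θ.trans (θ.inf h h') (θ.symm (hd' q s t)))⟩
  let ch : L → LCon L := fun t => ⟨fun u v => θ.1 (t ⊓ u) (t ⊓ v), by
    refine ⟨⟨fun u => θ.refl _, fun h => θ.symm h, fun h h' => θ.trans h h'⟩, ?_⟩
    intro p q r s h h'
    constructor
    · exact θ.trans (hd t p r) (θ.trans (θ.sup h h') (θ.symm (hd t q s)))
    · have e : ∀ m n : L, t ⊓ (m ⊓ n) = (t ⊓ m) ⊓ (t ⊓ n) := fun m n => inf_inf_distrib_left t m n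
      show θ.1 (t ⊓ (p ⊓ r)) (t ⊓ (q ⊓ s))
      rw [e, e]
      exact θ.inf h h'⟩
  have hps : ∀ t, θ ≤ ps t := fun t u v h => θ.sup_right t h
  have hch : ∀ t, θ ≤ ch t := fun t u v h => θ.inf_left t h
  -- cancellation
  have hcan : ∀ t, (ps t).1 x y → (ch t).1 x y → θ.1 x y := by
    intro t h1 h2
    have h1' : θ.1 (x ⊔ t) (y ⊔ t) := h1
    have h2' : θ.1 (t ⊓ x) (t ⊓ y) := h2
    -- `y ~ y ⊓ (x ⊔ t) ~ (y ⊓ x) ⊔ (y ⊓ t) ~ x ⊔ (t ⊓ x) = x`
    have h3 : θ.1 (y ⊓ (x ⊔ t)) (y ⊓ (y ⊔ t)) := θ.inf_left y h1'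
    rw [inf_eq_left.2 (le_sup_left : y ≤ y ⊔ t)] at h3
    have h4 := hd y x t
    have h5 : θ.1 ((y ⊓ x) ⊔ (y ⊓ t)) x := by
      have h6 : (y ⊓ x) = x := inf_eq_right.2 hxy
      rw [h6]
      have h7 : θ.1 (x ⊔ (t ⊓ x)) (x ⊔ (t ⊓ y)) := θ.sup_left x h2'
      rw [sup_eq_left.2 (inf_le_right : t ⊓ x ≤ x), inf_comm t y] at h7
      exact θ.symm h7
    exact θ.symm (θ.trans (θ.symm h3) (θ.trans h4 h5))
  have hdich : ∀ t, (∀ u, θ.1 u (u ⊔ t)) ∨ (∀ u, θ.1 u (t ⊓ u)) := by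
    intro t
    by_cases h1 : (ps t).1 x y
    · right
      have h2 : ¬ (ch t).1 x y := fun h => hn (hcan t h1 h)
      intro u
      refine hmax _ (hch t) h2 u (t ⊓ u) ?_
      show θ.1 (t ⊓ u) (t ⊓ (t ⊓ u))
      rw [← inf_assoc, inf_idem]
      exact θ.refl _
    · left
      intro u
      refine hmax _ (hps t) h1 u (u ⊔ t) ?_
      show θ.1 (u ⊔ t) (u ⊔ t ⊔ t)
      rw [sup_assoc, sup_idem]
      exact θ.refl _
  have hx : ∀ u, θ.1 u (u ⊔ x) := by
    rcases hdich x with h | h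
    · exact h
    · exfalso
      apply hn
      have := h y
      rw [inf_eq_left.2 hxy] at this
      exact θ.symm this
  have hy : ∀ u, θ.1 u (y ⊓ u) := by
    rcases hdich y with h | h
    · exfalso
      apply hn
      have := h x
      rw [sup_eq_right.2 hxy] at this
      exact this
    · exact h
  have hall : ∀ t, θ.1 t x ∨ θ.1 t y := by
    intro t
    rcases hdich t with h | h
    · left
      have h1 := h x
      have h2 := hx t
      rw [sup_comm] at h2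
      exact θ.trans h2 (θ.symm h1)
    · right
      have h1 := h y
      have h2 := hy t
      rw [inf_comm] at h2
      exact θ.trans h2 (θ.symm h1)
  have hnb : ∀ t, θ.1 t x → θ.1 t y → False := fun t h h' => hn (θ.trans (θ.symm h) h')
  let F : L → N5 := fun t => if θ.1 t x then o else i
  have Fo : ∀ t, θ.1 t x → F t = o := fun t h => if_pos h
  have Fi : ∀ t, θ.1 t y → F t = i := fun t h => if_neg (fun h' => hnb t h' h)
  refine ⟨⟨⟨F, ?_⟩, ?_⟩, ?_, ?_, ?_⟩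
  · intro u v
    show F (u ⊔ v) = F u ⊔ F v
    rcases hall u with hu | hu <;> rcases hall v with hv | hv
    · rw [Fo u hu, Fo v hv, Fo]
      · rfl
      · have := θ.sup hu hv
        rwa [sup_idem] at this
    · rw [Fo u hu, Fi v hv, Fi]
      · rfl
      · have := θ.sup hu hv
        rwa [sup_eq_right.2 hxy] at this
    · rw [Fi u hu, Fo v hv, Fi]
      · rfl
      · have := θ.sup hu hv
        rwa [sup_eq_left.2 hxy] at this
    · rw [Fi u hu, Fi v hv, Fi]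
      · rfl
      · have := θ.sup hu hv
        rwa [sup_idem] at this
  · intro u v
    show F (u ⊓ v) = F u ⊓ F v
    rcases hall u with hu | hu <;> rcases hall v with hv | hv
    · rw [Fo u hu, Fo v hv, Fo]
      · rfl
      · have := θ.inf hu hv
        rwa [inf_idem] at this
    · rw [Fo u hu, Fi v hv, Fo]
      · rfl
      · have := θ.inf hu hv
        rwa [inf_eq_left.2 hxy] at this
    · rw [Fi u hu, Fo v hv, Fo]
      · rfl
      · have := θ.inf hu hv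
        rwa [inf_eq_right.2 hxy] at this
    · rw [Fi u hu, Fi v hv, Fi]
      · rfl
      · have := θ.inf hu hv
        rwa [inf_idem] at this
  · intro z
    rcases hall z with h | h
    · exact Or.inl (Fo z h)
    · exact Or.inr (Fi z h)
  · intro u v huv
    show F u = F v
    rcases hall u with hu | hu
    · rw [Fo u hu, Fo v (θ.trans (θ.symm huv) hu)]
    · rw [Fi u hu, Fi v (θ.trans (θ.symm huv) hu)]
  · show F x ≠ F y
    rw [Fo x (θ.refl x), Fi y (θ.refl y)]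
    decide

end Pool.Agent.Work.MP_b103ef_al_h94
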