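import Pool.Agent.Work.MP_b103ef_al_h94.Sec1

set_option autoImplicit false

namespace Pool.Agent.Work.MP_b103ef_al_h94

open Pool.Agent.Work.MP_b103ef_al_h93 Pool.Agent.Work.MP_b103ef_al_h93.N5

/-- A five element nonmodular lattice is the pentagon. -/
theorem exists_iso {N : Type} [Lattice N] (hN : Nat.card N = 5) (hnm : ¬ IsModularLattice N) :
    ∃ g : LatticeHom N N5, Function.Injective g := by
  classical
  haveI : Finite N := Nat.finite_of_card_ne_zero (by rw [hN]; norm_num)
  haveI : Fintype N := Fintype.ofFinite N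
  -- a failure of modularity
  obtain ⟨x, y, z, hxz, hbad⟩ : ∃ x y z : N, x ≤ z ∧ ¬ (x ⊔ y) ⊓ z ≤ x ⊔ (y ⊓ z) := by
    by_contra hcon
    push_neg at hcon
    exact hnm ⟨fun {x} y {z} hxz => hcon x y z hxz⟩
  set A := x ⊔ (y ⊓ z) with hA
  set B := (x ⊔ y) ⊓ z with hB
  have hAB : A ≤ B := sup_le (le_inf le_sup_left hxz) (le_inf (inf_le_left.trans le_sup_right)
    inf_le_right)
  have hne : A ≠ B := fun h => hbad h.symm.le
  have hBy : B ⊓ y = y ⊓ z := by
    rw [hB]
    apply le_antisymm
    · exact le_inf inf_le_right (inf_le_left.trans inf_le_right)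
    · exact le_inf (le_inf (inf_le_left.trans le_sup_right) inf_le_right) inf_le_left
  have hAy : A ⊓ y = y ⊓ z := by
    apply le_antisymm
    · exact (inf_le_inf_right y hAB).trans hBy.le
    · exact le_inf le_sup_right inf_le_left
  have hAy' : A ⊔ y = x ⊔ y := by
    rw [hA, sup_assoc, sup_eq_right.2 (inf_le_left : y ⊓ z ≤ y)]
  have hBy' : B ⊔ y = x ⊔ y := by
    apply le_antisymm
    · exact sup_le inf_le_left le_sup_right
    · rw [← hAy']
      exact sup_le_sup_right hAB y
  set O := y ⊓ z with hO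
  set T := x ⊔ y with hT
  have hOA : O ≤ A := hAy ▸ inf_le_left
  have hOB : O ≤ B := hOA.trans hAB
  have hOy : O ≤ y := inf_le_left
  have hBT : B ≤ T := hBy' ▸ le_sup_left
  have hAT : A ≤ T := hAB.trans hBT
  have hyT : y ≤ T := le_sup_right
  have hOT : O ≤ T := hOA.trans hAT
  let F : N5 → N := fun e => match e with
    | o => O | a => A | b => B | c => y | i => T
  have hsup : ∀ p q, F (p ⊔ q) = F p ⊔ F q := by
    intro p q
    have h1 := sup_eq_right.2 hOA
    have h2 := sup_eq_right.2 hOB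
    have h3 := sup_eq_right.2 hOy
    have h4 := sup_eq_right.2 hOT
    have h5 := sup_eq_right.2 hAB
    have h6 := sup_eq_right.2 hAT
    have h7 := sup_eq_right.2 hBT
    have h8 := sup_eq_right.2 hyT
    have h1' := sup_eq_left.2 hOA
    have h2' := sup_eq_left.2 hOB
    have h3' := sup_eq_left.2 hOy
    have h4' := sup_eq_left.2 hOT
    have h5' := sup_eq_left.2 hAB
    have h6' := sup_eq_left.2 hAT
    have h7' := sup_eq_left.2 hBT
    have h8' := sup_eq_left.2 hyT
    have h9 : y ⊔ A = T := by rw [sup_comm]; exact hAy'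
    have h10 : y ⊔ B = T := by rw [sup_comm]; exact hBy'
    cases p <;> cases q <;> first
      | exact (sup_idem _).symm
      | exact h1.symm | exact h2.symm | exact h3.symm | exact h4.symm | exact h5.symm
      | exact h6.symm | exact h7.symm | exact h8.symm | exact h1'.symm | exact h2'.symm
      | exact h3'.symm | exact h4'.symm | exact h5'.symm | exact h6'.symm | exact h7'.symm
      | exact h8'.symm | exact h9.symm | exact h10.symm | exact hAy'.symm | exact hBy'.symm
  have hinf : ∀ p q, F (p ⊓ q) = F p ⊓ F q := by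
    intro p q
    have h1 := inf_eq_left.2 hOA
    have h2 := inf_eq_left.2 hOB
    have h3 := inf_eq_left.2 hOy
    have h4 := inf_eq_left.2 hOT
    have h5 := inf_eq_left.2 hAB
    have h6 := inf_eq_left.2 hAT
    have h7 := inf_eq_left.2 hBT
    have h8 := inf_eq_left.2 hyT
    have h1' := inf_eq_right.2 hOA
    have h2' := inf_eq_right.2 hOB
    have h3' := inf_eq_right.2 hOy
    have h4' := inf_eq_right.2 hOT
    have h5' := inf_eq_right.2 hAB
    have h6' := inf_eq_right.2 hAT
    have h7' := inf_eq_right.2 hBT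
    have h8' := inf_eq_right.2 hyT
    have h9 : y ⊓ A = O := by rw [inf_comm]; exact hAy
    have h10 : y ⊓ B = O := by rw [inf_comm]; exact hBy
    cases p <;> cases q <;> first
      | exact (inf_idem _).symm
      | exact h1.symm | exact h2.symm | exact h3.symm | exact h4.symm | exact h5.symm
      | exact h6.symm | exact h7.symm | exact h8.symm | exact h1'.symm | exact h2'.symm
      | exact h3'.symm | exact h4'.symm | exact h5'.symm | exact h6'.symm | exact h7'.symm
      | exact h8'.symm | exact h9.symm | exact h10.symm | exact hAy.symm | exact hBy.symm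
  have hinj : Function.Injective F := by
    intro p q hpq
    by_contra hne'
    apply hne
    have e1 : A = F a := rfl
    have e2 : B = F b := rfl
    rw [e1, e2]
    rcases N5_sep p q hne' with h | h | h | h
    · have h3 : F ((p ⊓ b) ⊔ a) = F ((q ⊓ b) ⊔ a) := by rw [hsup, hinf, hsup, hinf, hpq]
      rcases h with ⟨h1, h2⟩ | ⟨h1, h2⟩
      · rw [h1, h2] at h3; exact h3
      · rw [h1, h2] at h3; exact h3.symm
    · have h3 : F (((p ⊔ c) ⊓ b) ⊔ a) = F (((q ⊔ c) ⊓ b) ⊔ a) := by
        rw [hsup, hinf, hsup, hsup, hinf, hsup, hpq]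
      rcases h with ⟨h1, h2⟩ | ⟨h1, h2⟩
      · rw [h1, h2] at h3; exact h3
      · rw [h1, h2] at h3; exact h3.symm
    · have h3 : F ((p ⊔ a) ⊓ b) = F ((q ⊔ a) ⊓ b) := by rw [hinf, hsup, hinf, hsup, hpq]
      rcases h with ⟨h1, h2⟩ | ⟨h1, h2⟩
      · rw [h1, h2] at h3; exact h3
      · rw [h1, h2] at h3; exact h3.symm
    · have h3 : F (((p ⊓ c) ⊔ a) ⊓ b) = F (((q ⊓ c) ⊔ a) ⊓ b) := by
        rw [hinf, hsup, hinf, hinf, hsup, hinf, hpq]
      rcases h with ⟨h1, h2⟩ | ⟨h1, h2⟩
      · rw [h1, h2] at h3; exact h3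
      · rw [h1, h2] at h3; exact h3.symm
  have hcard : Fintype.card N5 = Fintype.card N := by
    rw [← Nat.card_eq_fintype_card, ← Nat.card_eq_fintype_card, N5.card_eq, hN]
  have hbij : Function.Bijective F := (Fintype.bijective_iff_injective_and_card F).2 ⟨hinj, hcard⟩
  let e := Equiv.ofBijective F hbij
  have he : ∀ p, e p = F p := fun p => rfl
  refine ⟨⟨⟨fun n => e.symm n, ?_⟩, ?_⟩, e.symm.injective⟩
  · intro m n
    show e.symm (m ⊔ n) = e.symm m ⊔ e.symm n
    rw [Equiv.symm_apply_eq, he, hsup, ← he, ← he, Equiv.apply_symm_apply, Equiv.apply_symm_apply]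
  · intro m n
    show e.symm (m ⊓ n) = e.symm m ⊓ e.symm n
    rw [Equiv.symm_apply_eq, he, hinf, ← he, ← he, Equiv.apply_symm_apply, Equiv.apply_symm_apply]

variable {L : Type} [Lattice L]

/-- Equality on a set of coordinates. -/
def eqOn {N I : Type} [Lattice N] (f : LatticeHom L (I → N)) (D : Set I) : LCon L :=
  ⟨fun u v => ∀ k ∈ D, f u k = f v k, by
    refine ⟨⟨fun u k _ => rfl, fun h k hk => (h k hk).symm, fun h h' k hk =>
      (h k hk).trans (h' k hk)⟩, ?_⟩
    intro p q r s h h'
    constructor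
    · intro k hk
      rw [map_sup, map_sup, Pi.sup_apply, Pi.sup_apply, h k hk, h' k hk]
    · intro k hk
      rw [map_inf, map_inf, Pi.inf_apply, Pi.inf_apply, h k hk, h' k hk]⟩

/-- Joensson's lemma: the quotient by a maximal congruence without (x, y) is a quotient of an
ultralimit. -/
theorem ultralimit {N I : Type} [Lattice N] [Finite N] (f : LatticeHom L (I → N))
    (hf : Function.Injective f) (θ : LCon L) {x y : L} (hxy : x ≤ y) (hn : ¬ θ.1 x y)
    (hmax : ∀ ζ : LCon L, θ ≤ ζ → ¬ ζ.1 x y → ζ ≤ θ) :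
    ∃ g : LatticeHom L N, ∀ u v, g u = g v → θ.1 u v := by
  classical
  -- `D` is small if equality on `D` does not imply `θ`
  let J : Filter I :=
    { sets := {D | ¬ eqOn f Dᶜ ≤ θ}
      univ_sets := by
        intro h
        apply hn
        apply h
        intro k hk
        exact absurd (Set.mem_univ k) hk
      sets_of_superset := by
        intro D E hD hDE hE
        apply hD
        intro u v huv
        exact hE u v (fun k hk => huv k (fun hkD => hk (hDE hkD)))
      inter_sets := by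
        intro D E hD hE h
        have h1 : (cj θ (eqOn f Dᶜ)).1 x y := by
          by_contra h2
          exact hD ((le_cj_right _ _).trans (hmax _ (le_cj_left _ _) h2))
        have h2 : (cj θ (eqOn f Eᶜ)).1 x y := by
          by_contra h2
          exact hE ((le_cj_right _ _).trans (hmax _ (le_cj_left _ _) h2))
        apply hn
        refine meet_irred θ _ _ hxy h1 h2 ?_
        intro u v h3 h4
        apply h
        intro k hk
        by_cases hkD : k ∈ D
        · by_cases hkE : k ∈ E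
          · exact absurd ⟨hkD, hkE⟩ hk
          · exact h4 k hkE
        · exact h3 k hkD }
  have hJ : J.NeBot := by
    rw [Filter.neBot_iff]
    intro h
    have h1 : (∅ : Set I) ∈ J := by rw [h]; exact Filter.mem_bot
    apply h1
    intro u v huv
    have h2 : f u = f v := by
      funext k
      exact huv k (fun hk => hk)
    rw [hf h2]
    exact θ.refl v
  let U : Ultrafilter I := Ultrafilter.of J
  have hU : ∀ D : Set I, D ∈ U → eqOn f D ≤ θ := by
    intro D hD
    by_contra h
    have h1 : Dᶜ ∈ J := by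
      show ¬ eqOn f Dᶜᶜ ≤ θ
      rw [compl_compl]
      exact h
    have h2 : Dᶜ ∈ U := Ultrafilter.of_le J h1
    exact (Ultrafilter.compl_mem_iff_notMem.1 h2) hD
  have hlim : ∀ u : L, ∃ n : N, ∀ᶠ k in (U : Filter I), f u k = n := by
    intro u
    obtain ⟨n, hn⟩ := Ultrafilter.eq_pure_of_finite (U.map (fun k => f u k))
    refine ⟨n, ?_⟩
    have h1 : ({n} : Set N) ∈ U.map (fun k => f u k) := by rw [hn]; exact rfl
    exact h1
  choose g hg using hlim
  refine ⟨⟨⟨g, ?_⟩, ?_⟩, ?_⟩
  · intro u v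
    obtain ⟨k, h1, h2, h3⟩ := ((hg u).and ((hg v).and (hg (u ⊔ v)))).exists
    show g (u ⊔ v) = g u ⊔ g v
    rw [← h1, ← h2, ← h3, map_sup, Pi.sup_apply]
  · intro u v
    obtain ⟨k, h1, h2, h3⟩ := ((hg u).and ((hg v).and (hg (u ⊓ v)))).exists
    show g (u ⊓ v) = g u ⊓ g v
    rw [← h1, ← h2, ← h3, map_inf, Pi.inf_apply]
  · intro u v huv
    have huv' : g u = g v := huv
    have h1 : ∀ᶠ k in (U : Filter I), f u k = f v k := by
      filter_upwards [hg u, hg v] with k h2 h3
      rw [h2, h3, huv']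
    exact hU _ h1 u v (fun k hk => hk)

/-- (1.1) Points separate congruences. -/
theorem points_separate {N I : Type} [Lattice N] (hN : Nat.card N = 5)
    (hnm : ¬ IsModularLattice N) (f : LatticeHom L (I → N)) (hf : Function.Injective f)
    (θ : LCon L) {x y : L} (h : ¬ θ.1 x y) :
    ∃ φ : LatticeHom L N5, ((∀ z, φ z = o ∨ φ z = i) ∨
      ((∃ z, φ z = a) ∧ (∃ z, φ z = b) ∧ (∃ z, φ z = c))) ∧
      (∀ u v, θ.1 u v → φ u = φ v) ∧ φ x ≠ φ y := by
  classical
  haveI : Finite N := Nat.finite_of_card_ne_zero (by rw [hN]; norm_num)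
  have h' : ¬ θ.1 (x ⊓ y) (x ⊔ y) := by
    intro h1
    apply h
    exact θ.trans (θ.symm (θ.bot_mid h1 inf_le_left le_sup_left))
      (θ.bot_mid h1 inf_le_right le_sup_right)
  have hle : x ⊓ y ≤ x ⊔ y := inf_le_left.trans le_sup_left
  obtain ⟨η, hη1, hη2, hη3⟩ := exists_max θ h'
  obtain ⟨g0, hg0⟩ := ultralimit f hf η hle hη2 hη3
  obtain ⟨e, he⟩ := exists_iso hN hnm
  let g : LatticeHom L N5 := e.comp g0
  have hg : ∀ u v, g u = g v → η.1 u v := by
    intro u v huv
    exact hg0 u v (he huv)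
  have hfin : ∀ φ : LatticeHom L N5, φ (x ⊓ y) ≠ φ (x ⊔ y) → φ x ≠ φ y := by
    intro φ h1 h2
    apply h1
    rw [map_inf, map_sup, h2, inf_idem, sup_idem]
  by_cases hcase : ∀ ua ub uc : L, g ua = a → g ub = b → g uc = c → η.1 ua ub
  · obtain ⟨φ, h1, h2, h3⟩ := two_hom η hle hη2 hη3 (distrib_mod g η hg hcase)
    exact ⟨φ, Or.inl h1, fun u v huv => h2 u v (hη1 _ _ huv), hfin φ h3⟩
  · push_neg at hcase
    obtain ⟨ua, ub, uc, ha, hb, hc, hab⟩ := hcase
    refine ⟨g, Or.inr ⟨⟨ua, ha⟩, ⟨ub, hb⟩, ⟨uc, hc⟩⟩, ?_, ?_⟩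
    · intro u v huv
      exact le_ker g η ha hb hc hg hab (hη1 _ _ huv)
    · apply hfin
      intro h1
      exact hη2 (hg _ _ h1)

end Pool.Agent.Work.MP_b103ef_al_h94
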