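import Pool.Agent.Work.MP_b103ef_al_h94.Sec1b

set_option autoImplicit false

namespace Pool.Agent.Work.MP_b103ef_al_h94

open Pool.Agent.Work.MP_b103ef_al_h93 Pool.Agent.Work.MP_b103ef_al_h93.N5

instance : DecidableLE N5 := fun x y => decidable_of_iff (x ⊔ y = y) sup_eq_right

theorem N5_fail : ∀ p q r : N5, ¬ q ⊓ (p ⊔ r) ≤ p ⊔ (q ⊓ r) → p = a ∧ q = b ∧ r = c := by
  decide

theorem N5_le_a_c : ∀ z : N5, z ≤ a → z ≤ c → z = o := by decide
theorem N5_b_c_le : ∀ z : N5, b ≤ z → c ≤ z → z = i := by decide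
theorem N5_bac : ¬ b ⊓ (a ⊔ c) ≤ a ⊔ (b ⊓ c) := by decide

theorem N5_sep2 : ∀ u w : N5, ¬ w ≤ u → (N5.pi w = i ∧ N5.pi u = o) ∨ (N5.rho w = i ∧ N5.rho u = o) ∨
    (u = a ∧ w = b) := by decide
theorem N5_pi_mono : ∀ u w : N5, u ≤ w → N5.pi w = o → N5.pi u = o := by decide
theorem N5_pi_mono' : ∀ u w : N5, u ≤ w → N5.pi u = i → N5.pi w = i := by decide
theorem N5_rho_mono : ∀ u w : N5, u ≤ w → N5.rho w = o → N5.rho u = o := by decide
theorem N5_rho_mono' : ∀ u w : N5, u ≤ w → N5.rho u = i → N5.rho w = i := by decide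
theorem N5_le_a : ∀ z : N5, z ≤ a → z ≠ c ∧ N5.tau z = o := by decide
theorem N5_b_le : ∀ z : N5, b ≤ z → z ≠ c ∧ N5.tau z = i := by decide

variable {L : Type} [Lattice L]

/-- (1.2) A pair that is split exactly by the homomorphisms with a given hitting restriction. -/
theorem isolate_hitting (Z : Finset L) (ψ : L → N5) (ha : ∃ z ∈ Z, ψ z = a)
    (hb : ∃ z ∈ Z, ψ z = b) (hc : ∃ z ∈ Z, ψ z = c) :
    ∃ x y : L, x ≤ y ∧ ∀ φ : LatticeHom L N5, (φ x ≠ φ y ↔ ∀ z ∈ Z, φ z = ψ z) := by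
  classical
  obtain ⟨za, hza, ha⟩ := ha
  obtain ⟨zb, hzb, hb⟩ := hb
  obtain ⟨zc, hzc, hc⟩ := hc
  -- the four kinds of finite sets
  have nA1 : (Z.filter (fun z => ψ z = a ∨ ψ z = o)).Nonempty :=
    ⟨za, Finset.mem_filter.2 ⟨hza, Or.inl ha⟩⟩
  have nA2 : (Z.filter (fun z => ψ z = a)).Nonempty := ⟨za, Finset.mem_filter.2 ⟨hza, ha⟩⟩
  have nB1 : (Z.filter (fun z => ψ z = b ∨ ψ z = i)).Nonempty :=
    ⟨zb, Finset.mem_filter.2 ⟨hzb, Or.inl hb⟩⟩
  have nB2 : (Z.filter (fun z => ψ z = b)).Nonempty := ⟨zb, Finset.mem_filter.2 ⟨hzb, hb⟩⟩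
  have nC1 : (Z.filter (fun z => ψ z = c ∨ ψ z = i)).Nonempty :=
    ⟨zc, Finset.mem_filter.2 ⟨hzc, Or.inl hc⟩⟩
  have nC0 : (Z.filter (fun z => ψ z = c ∨ ψ z = o)).Nonempty :=
    ⟨zc, Finset.mem_filter.2 ⟨hzc, Or.inl hc⟩⟩
  set a' := (Z.filter (fun z => ψ z = a ∨ ψ z = o)).sup' nA1 id with ha'
  set a'' := (Z.filter (fun z => ψ z = a)).inf' nA2 id with ha''
  set b' := (Z.filter (fun z => ψ z = b ∨ ψ z = i)).inf' nB1 id with hb'
  set b'' := (Z.filter (fun z => ψ z = b)).sup' nB2 id with hb''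
  set c1 := (Z.filter (fun z => ψ z = c ∨ ψ z = i)).inf' nC1 id with hc1
  set c0 := (Z.filter (fun z => ψ z = c ∨ ψ z = o)).sup' nC0 id with hc0
  refine ⟨(b' ⊓ (a'' ⊔ c1)) ⊓ (a' ⊔ (b'' ⊓ c0)), b' ⊓ (a'' ⊔ c1), inf_le_left, ?_⟩
  intro φ
  have hA : ∀ z ∈ Z, (ψ z = a ∨ ψ z = o) → φ z ≤ φ a' := fun z hz h =>
    OrderHomClass.mono φ (Finset.le_sup' id (Finset.mem_filter.2 ⟨hz, h⟩))
  have hA2 : ∀ z ∈ Z, ψ z = a → φ a'' ≤ φ z := fun z hz h =>
    OrderHomClass.mono φ (Finset.inf'_le id (Finset.mem_filter.2 ⟨hz, h⟩))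
  have hB : ∀ z ∈ Z, (ψ z = b ∨ ψ z = i) → φ b' ≤ φ z := fun z hz h =>
    OrderHomClass.mono φ (Finset.inf'_le id (Finset.mem_filter.2 ⟨hz, h⟩))
  have hB2 : ∀ z ∈ Z, ψ z = b → φ z ≤ φ b'' := fun z hz h =>
    OrderHomClass.mono φ (Finset.le_sup' id (Finset.mem_filter.2 ⟨hz, h⟩))
  have hC1 : ∀ z ∈ Z, (ψ z = c ∨ ψ z = i) → φ c1 ≤ φ z := fun z hz h =>
    OrderHomClass.mono φ (Finset.inf'_le id (Finset.mem_filter.2 ⟨hz, h⟩))
  have hC0 : ∀ z ∈ Z, (ψ z = c ∨ ψ z = o) → φ z ≤ φ c0 := fun z hz h =>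
    OrderHomClass.mono φ (Finset.le_sup' id (Finset.mem_filter.2 ⟨hz, h⟩))
  have haa : φ a'' ≤ φ a' := (hA2 za hza ha).trans (hA za hza (Or.inl ha))
  have hbb : φ b' ≤ φ b'' := (hB zb hzb (Or.inl hb)).trans (hB2 zb hzb hb)
  have hcc : φ c1 ≤ φ c0 := (hC1 zc hzc (Or.inl hc)).trans (hC0 zc hzc (Or.inl hc))
  have hiff : φ ((b' ⊓ (a'' ⊔ c1)) ⊓ (a' ⊔ (b'' ⊓ c0))) ≠ φ (b' ⊓ (a'' ⊔ c1)) ↔
      ¬ φ b' ⊓ (φ a'' ⊔ φ c1) ≤ φ a' ⊔ (φ b'' ⊓ φ c0) := by
    rw [map_inf, map_inf, map_sup, map_sup, map_inf, Ne, inf_eq_left]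
  rw [hiff]
  constructor
  · intro h
    have h1 : φ a' = a ∧ φ b' = b ∧ φ c1 = c := by
      apply N5_fail
      intro h2
      apply h
      calc φ b' ⊓ (φ a'' ⊔ φ c1) ≤ φ b' ⊓ (φ a' ⊔ φ c1) :=
            inf_le_inf_left _ (sup_le_sup_right haa _)
        _ ≤ φ a' ⊔ (φ b' ⊓ φ c1) := h2
        _ ≤ φ a' ⊔ (φ b'' ⊓ φ c0) := sup_le_sup_left (inf_le_inf hbb hcc) _
    have h2 : φ a'' = a ∧ φ b'' = b ∧ φ c0 = c := by
      apply N5_fail
      intro h2
      apply h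
      calc φ b' ⊓ (φ a'' ⊔ φ c1) ≤ φ b'' ⊓ (φ a'' ⊔ φ c0) :=
            inf_le_inf hbb (sup_le_sup_left hcc _)
        _ ≤ φ a'' ⊔ (φ b'' ⊓ φ c0) := h2
        _ ≤ φ a' ⊔ (φ b'' ⊓ φ c0) := sup_le_sup_right haa _
    obtain ⟨e1, e2, e3⟩ := h1
    obtain ⟨f1, f2, f3⟩ := h2
    intro z hz
    rcases hψ : ψ z with _ | _ | _ | _ | _
    · exact N5_le_a_c _ (e1 ▸ hA z hz (Or.inr hψ)) (f3 ▸ hC0 z hz (Or.inr hψ))
    · exact le_antisymm (e1 ▸ hA z hz (Or.inl hψ)) (f1 ▸ hA2 z hz hψ)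
    · exact le_antisymm (f2 ▸ hB2 z hz hψ) (e2 ▸ hB z hz (Or.inl hψ))
    · exact le_antisymm (f3 ▸ hC0 z hz (Or.inl hψ)) (e3 ▸ hC1 z hz (Or.inl hψ))
    · exact N5_b_c_le _ (e2 ▸ hB z hz (Or.inr hψ)) (e3 ▸ hC1 z hz (Or.inr hψ))
  · intro h
    have oa : (o : N5) ≤ a := by decide
    have oc : (o : N5) ≤ c := by decide
    have bi : (b : N5) ≤ i := by decide
    have ci : (c : N5) ≤ i := by decide
    have e1 : φ a' = a := by
      apply le_antisymm
      · rw [ha', map_finset_sup']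
        apply Finset.sup'_le
        intro z hz
        obtain ⟨hz1, hz2⟩ := Finset.mem_filter.1 hz
        show φ z ≤ a
        rw [h z hz1]
        rcases hz2 with h2 | h2 <;> rw [h2]
        exact oa
      · have := hA za hza (Or.inl ha)
        rwa [h za hza, ha] at this
    have e1' : φ a'' = a := by
      apply le_antisymm
      · have := hA2 za hza ha
        rwa [h za hza, ha] at this
      · rw [ha'', map_finset_inf']
        apply Finset.le_inf'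
        intro z hz
        obtain ⟨hz1, hz2⟩ := Finset.mem_filter.1 hz
        show a ≤ φ z
        rw [h z hz1, hz2]
    have e2 : φ b' = b := by
      apply le_antisymm
      · have := hB zb hzb (Or.inl hb)
        rwa [h zb hzb, hb] at this
      · rw [hb', map_finset_inf']
        apply Finset.le_inf'
        intro z hz
        obtain ⟨hz1, hz2⟩ := Finset.mem_filter.1 hz
        show b ≤ φ z
        rw [h z hz1]
        rcases hz2 with h2 | h2 <;> rw [h2]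
        exact bi
    have e2' : φ b'' = b := by
      apply le_antisymm
      · rw [hb'', map_finset_sup']
        apply Finset.sup'_le
        intro z hz
        obtain ⟨hz1, hz2⟩ := Finset.mem_filter.1 hz
        show φ z ≤ b
        rw [h z hz1, hz2]
      · have := hB2 zb hzb hb
        rwa [h zb hzb, hb] at this
    have e3 : φ c1 = c := by
      apply le_antisymm
      · have := hC1 zc hzc (Or.inl hc)
        rwa [h zc hzc, hc] at this
      · rw [hc1, map_finset_inf']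
        apply Finset.le_inf'
        intro z hz
        obtain ⟨hz1, hz2⟩ := Finset.mem_filter.1 hz
        show c ≤ φ z
        rw [h z hz1]
        rcases hz2 with h2 | h2 <;> rw [h2]
        exact ci
    have e3' : φ c0 = c := by
      apply le_antisymm
      · rw [hc0, map_finset_sup']
        apply Finset.sup'_le
        intro z hz
        obtain ⟨hz1, hz2⟩ := Finset.mem_filter.1 hz
        show φ z ≤ c
        rw [h z hz1]
        rcases hz2 with h2 | h2 <;> rw [h2]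
        exact oc
      · have := hC0 zc hzc (Or.inl hc)
        rwa [h zc hzc, hc] at this
    rw [e1, e1', e2, e2', e3, e3']
    exact N5_bac

/-- (1.3) A pair attached to a nonconstant vertex restriction. -/
theorem isolate_vertex (Z : Finset L) (r : L → N5) (hr : ∀ z ∈ Z, r z = o ∨ r z = i)
    (ho : ∃ z ∈ Z, r z = o) (hi : ∃ z ∈ Z, r z = i) :
    ∃ x y : L, x ≤ y ∧
      (∀ φ : LatticeHom L N5, φ x ≠ φ y →
        (∀ z ∈ Z, N5.pi (φ z) = r z) ∨ (∀ z ∈ Z, N5.rho (φ z) = r z) ∨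
        ((∀ z ∈ Z, φ z ≠ c) ∧ ∀ z ∈ Z, N5.tau (φ z) = r z)) ∧
      (∀ φ : LatticeHom L N5, (∀ z ∈ Z, φ z = r z) → φ x ≠ φ y) := by
  classical
  obtain ⟨z0, hz0, ho⟩ := ho
  obtain ⟨z1, hz1, hi⟩ := hi
  have n0 : (Z.filter (fun z => r z = o)).Nonempty := ⟨z0, Finset.mem_filter.2 ⟨hz0, ho⟩⟩
  have n1 : (Z.filter (fun z => r z = i)).Nonempty := ⟨z1, Finset.mem_filter.2 ⟨hz1, hi⟩⟩
  set x := (Z.filter (fun z => r z = o)).sup' n0 id with hx
  set w := (Z.filter (fun z => r z = i)).inf' n1 id with hw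
  have hX : ∀ φ : LatticeHom L N5, ∀ z ∈ Z, r z = o → φ z ≤ φ x := fun φ z hz h =>
    OrderHomClass.mono φ (Finset.le_sup' id (Finset.mem_filter.2 ⟨hz, h⟩))
  have hW : ∀ φ : LatticeHom L N5, ∀ z ∈ Z, r z = i → φ w ≤ φ z := fun φ z hz h =>
    OrderHomClass.mono φ (Finset.inf'_le id (Finset.mem_filter.2 ⟨hz, h⟩))
  refine ⟨x, x ⊔ w, le_sup_left, ?_, ?_⟩
  · intro φ hφ
    have h1 : ¬ φ w ≤ φ x := by
      intro h
      apply hφ
      rw [map_sup, sup_eq_left.2 h]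
    rcases N5_sep2 (φ x) (φ w) h1 with ⟨h2, h3⟩ | ⟨h2, h3⟩ | ⟨h2, h3⟩
    · left
      intro z hz
      rcases hr z hz with h | h
      · rw [h]; exact N5_pi_mono _ _ (hX φ z hz h) h3
      · rw [h]; exact N5_pi_mono' _ _ (hW φ z hz h) h2
    · right; left
      intro z hz
      rcases hr z hz with h | h
      · rw [h]; exact N5_rho_mono _ _ (hX φ z hz h) h3
      · rw [h]; exact N5_rho_mono' _ _ (hW φ z hz h) h2
    · right; right
      have h4 : ∀ z ∈ Z, φ z ≠ c ∧ N5.tau (φ z) = r z := by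
        intro z hz
        rcases hr z hz with h | h
        · rw [h]; exact N5_le_a _ (h2 ▸ hX φ z hz h)
        · rw [h]; exact N5_b_le _ (h3 ▸ hW φ z hz h)
      exact ⟨fun z hz => (h4 z hz).1, fun z hz => (h4 z hz).2⟩
  · intro φ hφ
    have h1 : φ x = o := by
      rw [hx, map_finset_sup']
      apply le_antisymm
      · apply Finset.sup'_le
        intro z hz
        obtain ⟨hz1, hz2⟩ := Finset.mem_filter.1 hz
        show φ z ≤ o
        rw [hφ z hz1, hz2]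
      · exact (by decide : ∀ t : N5, o ≤ t) _
    have h2 : φ w = i := by
      rw [hw, map_finset_inf']
      apply le_antisymm
      · exact (by decide : ∀ t : N5, t ≤ i) _
      · apply Finset.le_inf'
        intro z hz
        obtain ⟨hz1, hz2⟩ := Finset.mem_filter.1 hz
        show i ≤ φ z
        rw [hφ z hz1, hz2]
    rw [map_sup, h1, h2]
    decide

end Pool.Agent.Work.MP_b103ef_al_h94
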